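import Pool.Agent.MP_1037db_co.Geo

/-! The John frame of a normed plane. -/

namespace Pool.Agent.MP_1037db_co.J

open Real

/-- `ν` is in John position: the Euclidean disk lies in the unit disk of `ν` and touches its
boundary in three directions `a, b, c` whose gaps modulo `π` are at most `π / 2`. -/
structure John (ν : Seminorm ℝ (ℝ × ℝ)) (a b c : ℝ) : Prop where
  le : ∀ x : ℝ × ℝ, ν x ^ 2 ≤ x.1 ^ 2 + x.2 ^ 2
  ab : a ≤ b
  bc : b ≤ c
  ca : c ≤ a + π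
  gab : b ≤ a + π / 2
  gbc : c ≤ b + π / 2
  gca : a + π / 2 ≤ c
  fa : ∀ x : ℝ × ℝ, |cos a * x.1 + sin a * x.2| ≤ ν x
  fb : ∀ x : ℝ × ℝ, |cos b * x.1 + sin b * x.2| ≤ ν x
  fc : ∀ x : ℝ × ℝ, |cos c * x.1 + sin c * x.2| ≤ ν x

theorem sn_le (η : Seminorm ℝ (ℝ × ℝ)) (x : ℝ × ℝ) :
    η x ≤ |x.1| * η (1, 0) + |x.2| * η (0, 1) := by
  have e : x = x.1 • ((1, 0) : ℝ × ℝ) + x.2 • ((0, 1) : ℝ × ℝ) := by ext <;> simp
  calc η x = η (x.1 • ((1, 0) : ℝ × ℝ) + x.2 • ((0, 1) : ℝ × ℝ)) := by rw [← e]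
    _ ≤ _ := by
      refine (map_add_le_add η _ _).trans ?_
      rw [map_smul_eq_mul, map_smul_eq_mul, norm_eq_abs, norm_eq_abs]

theorem sn_cont (η : Seminorm ℝ (ℝ × ℝ)) : Continuous η := by
  refine (LipschitzWith.of_dist_le_mul (K := (η (1, 0) + η (0, 1)).toNNReal) fun x y => ?_).continuous
  have h0 := apply_nonneg η (1, 0)
  have h1 := apply_nonneg η (0, 1)
  rw [Real.coe_toNNReal _ (by positivity), Real.dist_eq, dist_eq_norm]
  refine (abs_sub_map_le_sub η x y).trans ((sn_le η _).trans ?_)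
  have a : |(x - y).1| ≤ ‖x - y‖ := norm_fst_le (x - y)
  have b : |(x - y).2| ≤ ‖x - y‖ := norm_snd_le (x - y)
  nlinarith

theorem sn_low (η : Seminorm ℝ (ℝ × ℝ)) (hη : ∀ x, η x = 0 → x = 0) :
    ∃ m : ℝ, 0 < m ∧ ∀ x, m * ‖x‖ ≤ η x := by
  obtain ⟨z, hz, hm⟩ := (isCompact_sphere (0 : ℝ × ℝ) 1).exists_isMinOn
    ⟨(1, 0), by simp [Prod.norm_def]⟩ (sn_cont η).continuousOn
  have hz1 : ‖z‖ = 1 := by simpa using hz
  refine ⟨η z, lt_of_le_of_ne (apply_nonneg η z) fun h => ?_, fun x => ?_⟩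
  · rw [hη z h.symm] at hz1; simp at hz1
  · rcases eq_or_ne x 0 with rfl | hx
    · simp
    · have hn : 0 < ‖x‖ := norm_pos_iff.2 hx
      have h : η z ≤ η (‖x‖⁻¹ • x) := hm (by simp [norm_smul, hn.ne'])
      rw [smul_nn η (inv_nonneg.2 hn.le), ← div_eq_inv_mul, le_div_iff₀ hn] at h
      exact h

/-- a smallest ellipse form above `η` -/
theorem exists_min (η : Seminorm ℝ (ℝ × ℝ)) (hη : ∀ x, η x = 0 → x = 0) :
    ∃ p q s : ℝ, 0 < p ∧ 0 < s ∧ (∀ x, η x ^ 2 ≤ (p * x.1 + q * x.2) ^ 2 + (s * x.2) ^ 2) ∧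
      ∀ p' q' s' : ℝ, 0 ≤ p' → 0 ≤ s' →
        (∀ x, η x ^ 2 ≤ (p' * x.1 + q' * x.2) ^ 2 + (s' * x.2) ^ 2) → p * s ≤ p' * s' := by
  obtain ⟨m, hm, hl⟩ := sn_low η hη
  set d := η (1, 0) + η (0, 1) with hd
  have h0 := apply_nonneg η (1, 0)
  have h1 := apply_nonneg η (0, 1)
  have low : ∀ p q s : ℝ, 0 ≤ p → 0 ≤ s →
      (∀ x, η x ^ 2 ≤ (p * x.1 + q * x.2) ^ 2 + (s * x.2) ^ 2) →
      m ≤ p ∧ m ≤ s ∧ m * |q| ≤ p * s := fun p q s hp hs h => by
    have a1 : m ≤ p := by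
      have := hl (1, 0)
      have h2 := h (1, 0)
      simp only [Prod.norm_def, norm_one, norm_zero, zero_le_one, sup_of_le_left, mul_one,
        mul_zero, add_zero] at this h2
      nlinarith [abs_le_of_sq_le_sq' (by nlinarith : η (1, 0) ^ 2 ≤ p ^ 2) hp]
    have h2 := h (-q, p)
    have h3 : η (-q, p) ≤ p * s :=
      (abs_le_of_sq_le_sq' (by nlinarith : η (-q, p) ^ 2 ≤ (p * s) ^ 2) (by positivity)).2
    have h4 := (hl (-q, p)).trans h3
    have b1 : |q| ≤ ‖((-q, p) : ℝ × ℝ)‖ := by simp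
    have b2 : p ≤ ‖((-q, p) : ℝ × ℝ)‖ := (le_abs_self p).trans (norm_snd_le ((-q, p) : ℝ × ℝ))
    refine ⟨a1, ?_, by nlinarith⟩
    have : p * m ≤ p * s := by nlinarith
    exact le_of_mul_le_mul_left this (hm.trans_le a1)
  let S : Set (ℝ × ℝ × ℝ) := {w | 0 ≤ w.1 ∧ 0 ≤ w.2.2 ∧ w.1 * w.2.2 ≤ d * d ∧
    ∀ x, η x ^ 2 ≤ (w.1 * x.1 + w.2.1 * x.2) ^ 2 + (w.2.2 * x.2) ^ 2}
  have hc : IsClosed S := by
    simp only [S, Set.ofPred_and, Set.ofPred_forall]
    refine (isClosed_le (by fun_prop) (by fun_prop)).inter ((isClosed_le (by fun_prop)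
      (by fun_prop)).inter ((isClosed_le (by fun_prop) (by fun_prop)).inter
      (isClosed_iInter fun x => isClosed_le (by fun_prop) (by fun_prop))))
  have hb : Bornology.IsBounded S := by
    refine (Metric.isBounded_closedBall (x := 0) (r := d * d / m)).subset fun w hw => ?_
    obtain ⟨a1, a2, a3⟩ := low _ _ _ hw.1 hw.2.1 hw.2.2.2
    have a4 := hw.2.2.1
    simp only [mem_closedBall_zero_iff, Prod.norm_def, max_le_iff, norm_eq_abs]
    rw [abs_of_nonneg hw.1, abs_of_nonneg hw.2.1]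
    refine ⟨?_, ?_, ?_⟩ <;> rw [le_div_iff₀ hm] <;> nlinarith [hw.1, hw.2.1]
  have hne : (d, 0, d) ∈ S := ⟨by positivity, by positivity, le_rfl, fun x => by
    have a := sn_le η x
    have b := apply_nonneg η x
    have c : η x ^ 2 ≤ (|x.1| * η (1, 0) + |x.2| * η (0, 1)) ^ 2 := by gcongr
    simp only [zero_mul, add_zero, mul_pow, hd]
    rw [← sq_abs x.1, ← sq_abs x.2]
    have e1 := abs_nonneg x.1
    have e2 := abs_nonneg x.2
    nlinarith [sq_nonneg (|x.1| * η (0, 1) - |x.2| * η (1, 0)), mul_nonneg h0 h1,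
      mul_nonneg (mul_nonneg h0 h1) (sq_nonneg |x.1|), mul_nonneg (mul_nonneg h0 h1) (sq_nonneg |x.2|)]⟩
  obtain ⟨w, hw, hmin⟩ := (Metric.isCompact_of_isClosed_isBounded hc hb).exists_isMinOn ⟨_, hne⟩
    (f := fun w => w.1 * w.2.2) (by fun_prop)
  obtain ⟨a1, a2, -⟩ := low _ _ _ hw.1 hw.2.1 hw.2.2.2
  refine ⟨w.1, w.2.1, w.2.2, hm.trans_le a1, hm.trans_le a2, hw.2.2.2, fun p' q' s' hp hs h => ?_⟩
  rcases le_total (p' * s') (d * d) with c | c
  · exact hmin (a := (p', q', s')) ⟨hp, hs, c, h⟩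
  · exact hw.2.2.1.trans c

variable {ν : Seminorm ℝ (ℝ × ℝ)}

/-- every quarter turn contains a contact direction -/
theorem contact (h1 : ∀ x : ℝ × ℝ, ν x ^ 2 ≤ x.1 ^ 2 + x.2 ^ 2)
    (h2 : ∀ p q s : ℝ, 0 ≤ p → 0 ≤ s →
      (∀ x, ν x ^ 2 ≤ (p * x.1 + q * x.2) ^ 2 + (s * x.2) ^ 2) → 1 ≤ p * s) (φ : ℝ) :
    ∃ θ ∈ Set.Icc (φ - π / 4) (φ + π / 4), ν (cos θ, sin θ) = 1 := by
  by_contra hcon
  push Not at hcon
  have hπ := pi_pos
  obtain ⟨z, hz, hm⟩ := (isCompact_Icc (a := φ - π / 4) (b := φ + π / 4)).exists_isMaxOn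
    ⟨φ, by constructor <;> linarith⟩ (f := fun θ => ν (cos θ, sin θ))
    ((sn_cont ν).comp (by fun_prop)).continuousOn
  set μ := ν (cos z, sin z) with hμ
  have μ0 : 0 ≤ μ := apply_nonneg ν _
  have μ1 : μ < 1 := lt_of_le_of_ne (by
    have := h1 (cos z, sin z)
    simp only [cos_sq_add_sin_sq] at this
    nlinarith) (hcon z hz)
  set ε := (1 - μ ^ 2) / 2 with hε
  have ε0 : 0 < ε := by rw [hε]; nlinarith
  have ε1 : ε ≤ 1 / 2 := by rw [hε]; nlinarith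
  have cs := cos_sq_add_sin_sq φ
  have key : ∀ x : ℝ × ℝ, ν x ^ 2 ≤ x.1 ^ 2 + x.2 ^ 2 -
      ε * ((cos φ * x.1 + sin φ * x.2) ^ 2 - (cos φ * x.2 - sin φ * x.1) ^ 2) := fun x => by
    set α := cos φ * x.1 + sin φ * x.2 with hα
    set β := cos φ * x.2 - sin φ * x.1 with hβ
    have n : x.1 ^ 2 + x.2 ^ 2 = α ^ 2 + β ^ 2 := by
      rw [hα, hβ]; linear_combination (-(x.1 ^ 2 + x.2 ^ 2)) * cs
    rcases le_or_gt (α ^ 2) (β ^ 2) with c | c
    · nlinarith [h1 x]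
    · have α0 : α ≠ 0 := by rintro h; rw [h] at c; nlinarith [sq_nonneg β]
      have t1 : |β / α| ≤ 1 := by
        rw [abs_div, div_le_one (abs_pos.2 α0)]; exact (sq_le_sq.1 c.le)
      set τ := arctan (β / α) with hτ
      have τ1 : τ ≤ π / 4 := arctan_one ▸ arctan_strictMono.monotone (abs_le.1 t1).2
      have τ2 : -(π / 4) ≤ τ := by
        have := arctan_strictMono.monotone (abs_le.1 t1).1
        rwa [arctan_neg, arctan_one] at this
      have c0 : 0 < cos τ := cos_arctan_pos _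
      have tn : sin τ = β / α * cos τ := by
        rw [← tan_arctan (β / α), ← hτ, tan_eq_sin_div_cos]; field_simp
      have e : x = (α / cos τ) • (cos (φ + τ), sin (φ + τ)) := by
        ext
        · simp only [Prod.smul_fst, smul_eq_mul, cos_add, tn]
          field_simp
          rw [hα, hβ]; linear_combination (-x.1) * cs
        · simp only [Prod.smul_snd, smul_eq_mul, sin_add, tn]
          field_simp
          rw [hα, hβ]; linear_combination (-x.2) * cs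
      have r : (α / cos τ) ^ 2 = α ^ 2 + β ^ 2 := by
        have := cos_sq_add_sin_sq τ
        rw [tn] at this
        field_simp at this ⊢
        linear_combination (-1) * this
      have b : ν (cos (φ + τ), sin (φ + τ)) ≤ μ := hm ⟨by linarith, by linarith⟩
      have b0 := apply_nonneg ν (cos (φ + τ), sin (φ + τ))
      have v : ν x ^ 2 = (α ^ 2 + β ^ 2) * ν (cos (φ + τ), sin (φ + τ)) ^ 2 := by
        conv_lhs => rw [e, map_smul_eq_mul, mul_pow, norm_eq_abs, sq_abs, r]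
      have b2 : ν (cos (φ + τ), sin (φ + τ)) ^ 2 ≤ 1 - ε := by nlinarith
      rw [v, n]
      nlinarith [mul_le_mul_of_nonneg_left b2 (by positivity : 0 ≤ α ^ 2 + β ^ 2), sq_nonneg β]
  set C := cos φ ^ 2 - sin φ ^ 2 with hC
  set S := 2 * cos φ * sin φ with hS
  have CS : C ^ 2 + S ^ 2 = 1 := by
    rw [hC, hS]; linear_combination (cos φ ^ 2 + sin φ ^ 2 + 1) * cs
  have a0 : 0 < 1 - ε * C := by nlinarith [sq_nonneg S, sq_nonneg (C - 1)]
  have e0 : 0 < 1 - ε ^ 2 := by nlinarith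
  set p := √(1 - ε * C) with hp
  set w := √(1 - ε ^ 2) with hw
  have p0 : 0 < p := sqrt_pos.2 a0
  have w0 : 0 < w := sqrt_pos.2 e0
  have p2 : p ^ 2 = 1 - ε * C := sq_sqrt a0.le
  have w2 : w ^ 2 = 1 - ε ^ 2 := sq_sqrt e0.le
  have := h2 p (-ε * S / p) (w / p) p0.le (by positivity) fun x => (key x).trans (le_of_eq (by
    have : (p * x.1 + -ε * S / p * x.2) ^ 2 + (w / p * x.2) ^ 2 =
        p ^ 2 * x.1 ^ 2 - 2 * ε * S * x.1 * x.2 + (ε ^ 2 * S ^ 2 + w ^ 2) / p ^ 2 * x.2 ^ 2 := by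
      field_simp; ring
    have k : (ε ^ 2 * S ^ 2 + w ^ 2) / p ^ 2 = 1 + ε * C := by
      rw [div_eq_iff (by positivity), w2, p2]; linear_combination ε ^ 2 * CS
    rw [this, k, p2, hC, hS]; ring))
  rw [mul_div_cancel₀ _ p0.ne'] at this
  nlinarith

/-- at a contact direction the tangent of the circle supports the unit disk of `ν` -/
theorem normal (h1 : ∀ x : ℝ × ℝ, ν x ^ 2 ≤ x.1 ^ 2 + x.2 ^ 2) {θ : ℝ} (h : ν (cos θ, sin θ) = 1)
    (x : ℝ × ℝ) : |cos θ * x.1 + sin θ * x.2| ≤ ν x := by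
  have one : ∀ x : ℝ × ℝ, cos θ * x.1 + sin θ * x.2 ≤ ν x := fun x => by
    by_contra hc
    push Not at hc
    set k := cos θ * x.1 + sin θ * x.2 with hk
    set n := ν x with hn
    set N := x.1 ^ 2 + x.2 ^ 2 with hN
    have n0 : 0 ≤ n := apply_nonneg ν x
    have N0 : 0 ≤ N := by positivity
    obtain ⟨s, s0, s1, s2⟩ : ∃ s : ℝ, 0 < s ∧ s * n ≤ 1 ∧ s * N ≤ k - n := by
      refine ⟨min (1 / (n + 1)) ((k - n) / (N + 1)), lt_min (by positivity)
        (div_pos (by linarith) (by positivity)), ?_, ?_⟩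
      · refine (mul_le_mul_of_nonneg_right (min_le_left _ _) n0).trans ?_
        rw [div_mul_eq_mul_div, div_le_one (by positivity)]; linarith
      · refine (mul_le_mul_of_nonneg_right (min_le_right _ _) N0).trans ?_
        rw [div_mul_eq_mul_div, div_le_iff₀ (by positivity)]; nlinarith
    have a : ν (cos θ, sin θ) ≤ ν ((cos θ, sin θ) - s • x) + s * n := by
      rw [hn, ← smul_nn ν s0.le]
      simpa using map_add_le_add ν ((cos θ, sin θ) - s • x) (s • x)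
    have b := h1 ((cos θ, sin θ) - s • x)
    simp only [Prod.fst_sub, Prod.snd_sub, Prod.smul_fst, Prod.smul_snd, smul_eq_mul] at b
    have c : (1 - s * n) ^ 2 ≤ ν ((cos θ, sin θ) - s • x) ^ 2 := by
      have : 0 ≤ 1 - s * n := by linarith
      gcongr
      linarith
    have d : (cos θ - s * x.1) ^ 2 + (sin θ - s * x.2) ^ 2 = 1 - 2 * s * k + s ^ 2 * N := by
      rw [hk, hN]; linear_combination cos_sq_add_sin_sq θ
    have e : s * (2 * (k - n)) ≤ s * (s * N) := by nlinarith [sq_nonneg (s * n)]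
    have := le_of_mul_le_mul_left e s0
    linarith
  refine abs_le.2 ⟨?_, one x⟩
  have := one (-x)
  simp only [Prod.fst_neg, Prod.snd_neg, map_neg_eq_map] at this
  linarith

theorem john_of (h1 : ∀ x : ℝ × ℝ, ν x ^ 2 ≤ x.1 ^ 2 + x.2 ^ 2)
    (h2 : ∀ φ, ∃ θ ∈ Set.Icc (φ - π / 4) (φ + π / 4), ν (cos θ, sin θ) = 1) :
    ∃ a b c, John ν a b c := by
  have hπ := pi_pos
  obtain ⟨a, -, ha⟩ := h2 0
  have hc : IsClosed {θ | ν (cos θ, sin θ) = 1} :=
    isClosed_eq ((sn_cont ν).comp (by fun_prop)) continuous_const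
  have ha' : ν (cos (a + π), sin (a + π)) = 1 := by
    rw [cos_add_pi, sin_add_pi, ← ha]
    exact map_neg_eq_map ν (cos a, sin a)
  obtain ⟨b, hb, mb⟩ := ((isCompact_Icc (a := a) (b := a + π / 2)).inter_right hc).exists_isGreatest
    ⟨a, ⟨le_rfl, by linarith⟩, ha⟩
  obtain ⟨c, hc', mc⟩ := ((isCompact_Icc (a := a + π / 2) (b := a + π)).inter_right hc).exists_isLeast
    ⟨a + π, ⟨by linarith, le_rfl⟩, ha'⟩
  refine ⟨a, b, c, h1, hb.1.1, hb.1.2.trans hc'.1.1, hc'.1.2, hb.1.2, ?_, hc'.1.1,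
    normal h1 ha, normal h1 hb.2, normal h1 hc'.2⟩
  by_contra h
  push Not at h
  obtain ⟨θ, ⟨t1, t2⟩, ht⟩ := h2 ((b + c) / 2)
  rcases le_total θ (a + π / 2) with k | k
  · have := mb ⟨⟨by linarith [hb.1.1], k⟩, ht⟩
    linarith
  · have := mc ⟨⟨k, by linarith [hc'.1.2]⟩, ht⟩
    linarith

/-- every norm of the plane has a John frame -/
theorem exists_john (η : Seminorm ℝ (ℝ × ℝ)) (hη : ∀ x, η x = 0 → x = 0) :
    ∃ (A : (ℝ × ℝ) ≃ₗ[ℝ] (ℝ × ℝ)) (a b c : ℝ), John (η.comp A.toLinearMap) a b c := by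
  obtain ⟨p, q, s, p0, s0, h1, h2⟩ := exists_min η hη
  let A : (ℝ × ℝ) ≃ₗ[ℝ] (ℝ × ℝ) :=
    { toFun := fun y => ((y.1 - q * y.2 / s) / p, y.2 / s)
      invFun := fun x => (p * x.1 + q * x.2, s * x.2)
      map_add' := fun x y => by ext <;> simp only [Prod.fst_add, Prod.snd_add] <;> ring
      map_smul' := fun r x => by
        ext <;> simp only [Prod.smul_fst, Prod.smul_snd, smul_eq_mul, RingHom.id_apply] <;> ring
      left_inv := fun y => by ext <;> simp only <;> field_simp; ring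
      right_inv := fun x => by ext <;> simp only <;> field_simp; ring }
  have e : ∀ y, (η.comp A.toLinearMap) y = η ((y.1 - q * y.2 / s) / p, y.2 / s) := fun _ => rfl
  have k1 : ∀ y : ℝ × ℝ, (η.comp A.toLinearMap) y ^ 2 ≤ y.1 ^ 2 + y.2 ^ 2 := fun y => by
    rw [e]
    refine (h1 _).trans (le_of_eq ?_)
    field_simp; ring
  refine ⟨A, john_of k1 (contact k1 fun p' q' s' hp hs h => ?_)⟩
  have := h2 (p' * p) (p' * q + q' * s) (s' * s) (by positivity) (by positivity) fun x => by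
    have := h (p * x.1 + q * x.2, s * x.2)
    rw [e] at this
    have e2 : ((p * x.1 + q * x.2 - q * (s * x.2) / s) / p, s * x.2 / s) = x := by
      ext <;> simp only <;> field_simp; ring
    simp only [e2] at this
    exact this.trans (le_of_eq (by ring))
  have ps : 0 < p * s := by positivity
  nlinarith

theorem span_comp {α : Type} (η : Seminorm ℝ (ℝ × ℝ)) (A : (ℝ × ℝ) ≃ₗ[ℝ] (ℝ × ℝ))
    (p : α → ℝ × ℝ) (T : BinaryTree α) : ∀ v,
    span (η.comp A.toLinearMap) (fun i => A.symm (p i)) (A.symm v) T = span η p v T := by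
  induction T with
  | nil => intro v; rfl
  | node i l r h1 h2 =>
    intro v
    rw [span, span, h1, h2, ← map_sub]
    simp

theorem lam_comp (η : Seminorm ℝ (ℝ × ℝ)) (A : (ℝ × ℝ) ≃ₗ[ℝ] (ℝ × ℝ)) :
    Lam (η.comp A.toLinearMap) = Lam η := by
  unfold Lam
  congr 1
  ext s
  constructor
  · rintro ⟨u, v, hu, hv, rfl⟩
    exact ⟨A u, A v, hu, hv, by simp⟩
  · rintro ⟨u, v, hu, hv, rfl⟩
    exact ⟨A.symm u, A.symm v, by simpa using hu, by simpa using hv, by simp⟩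

/-- it suffices to treat norms in John position -/
theorem reduce {n : ℕ} (f : ℝ → ℝ)
    (H : ∀ (ν : Seminorm ℝ (ℝ × ℝ)) (a b c : ℝ), John ν a b c → ∀ p : Fin n → ℝ × ℝ,
      (∀ i, ν (p i) ≤ 1) → ∃ T : BinaryTree (Fin n), labels T = Finset.univ.val ∧
        span ν p 0 T ≤ f (Lam ν))
    (η : Seminorm ℝ (ℝ × ℝ)) (hη : ∀ x, η x = 0 → x = 0) (p : Fin n → ℝ × ℝ)
    (hp : ∀ i, η (p i) ≤ 1) :
    ∃ T : BinaryTree (Fin n), labels T = Finset.univ.val ∧ span η p 0 T ≤ f (Lam η) := by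
  obtain ⟨A, a, b, c, h⟩ := exists_john η hη
  obtain ⟨T, h1, h2⟩ := H _ a b c h (fun i => A.symm (p i)) fun i => by simpa using hp i
  refine ⟨T, h1, ?_⟩
  rw [← span_comp η A p T 0, map_zero, ← lam_comp η A]
  exact h2

end Pool.Agent.MP_1037db_co.J
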