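import Pool.Agent.MP_1037db_co.Mg.Arc
import Pool.Agent.MP_1037db_co.J.John

/-! Eight well separated points: the case in which the regular octagon is extremal. -/

namespace Pool.Agent.MP_1037db_co.J

open Real

variable {η : Seminorm ℝ (ℝ × ℝ)}

theorem chord_mono (hη : ∀ x, η x = 0 → x = 0) {a s t b : ℝ} (h1 : a ≤ s) (h2 : s ≤ t) (h3 : t ≤ b)
    (h4 : b < a + π) : η (dir η t - dir η s) ≤ η (dir η b - dir η a) := by
  obtain ⟨l, m, hl, hm, e⟩ := dir_comb hη h1 (h2.trans h3) h4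
  obtain ⟨l', m', hl', hm', e'⟩ := dir_comb hη h2 h3 (show b < s + π by linarith)
  have k1 := mono η (a := -dir η a) (x := dir η b) (y := dir η s)
    (by rw [map_neg_eq_map, eta_dir hη]) (eta_dir hη s) (eta_dir hη b).le hm hl (by rw [e]; module)
  have k2 := mono η (a := -dir η b) (x := dir η s) (y := dir η t)
    (by rw [map_neg_eq_map, eta_dir hη]) (eta_dir hη t) (eta_dir hη s).le hl' hm'
    (by rw [e']; module)
  rw [← sub_eq_add_neg] at k1 k2
  exact k2.trans k1

theorem dir_cont (hη : ∀ x, η x = 0 → x = 0) : Continuous (dir η) :=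
  (((sn_cont η).comp (by fun_prop : Continuous fun t : ℝ => ((cos t, sin t) : ℝ × ℝ))).inv₀
    fun t => (eta_pos hη t).ne').smul (by fun_prop)

theorem dir_per (t : ℝ) (z : ℤ) : dir η (t - 2 * π * z) = dir η t := by
  rw [dir, dir, mul_comm, cos_sub_int_mul_two_pi, sin_sub_int_mul_two_pi]

theorem dir_mid (hη : ∀ x, η x = 0 → x = 0) {a b : ℝ} (h1 : a < b) (h2 : b < a + π) :
    ∃ c l : ℝ, a ≤ c ∧ c ≤ b ∧ 0 ≤ l ∧ dir η c = l • (dir η a + dir η b) := by
  have d : 0 < det (dir η a) (dir η b) := by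
    have s1 : 0 < sin (b - a) := sin_pos_of_pos_of_lt_pi (by linarith) (by linarith)
    have pa := inv_pos.2 (eta_pos hη a)
    have pb := inv_pos.2 (eta_pos hη b)
    have := mul_pos (mul_pos pa pb) s1
    simp only [det, dir, Prod.smul_mk, smul_eq_mul]
    rw [sin_sub] at this
    linarith
  have c : Continuous fun t => det (dir η a + dir η b) (dir η t) := by
    have := dir_cont hη
    exact (continuous_const.mul this.snd).sub (continuous_const.mul this.fst)
  obtain ⟨t, ⟨t1, t2⟩, ht⟩ := intermediate_value_Icc h1.le c.continuousOn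
    (show (0 : ℝ) ∈ Set.Icc _ _ by
      simp only [det, Prod.fst_add, Prod.snd_add] at d ⊢
      constructor <;> linarith)
  obtain ⟨l, m, hl, -, e⟩ := dir_comb hη t1 t2 h2
  have : m = l := by
    simp only [e, det, Prod.fst_add, Prod.snd_add, Prod.smul_fst, Prod.smul_snd, smul_eq_mul] at ht d
    exact mul_right_cancel₀ d.ne' (by linarith)
  exact ⟨t, l, t1, t2, hl, by rw [e, this, smul_add]⟩

/-- an inscribed octagon with a given vertex and sides of length at most `Lam η - 2` -/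
theorem octagon (hη : ∀ x, η x = 0 → x = 0) (a : ℝ) : ∃ φ : ℕ → ℝ, φ 0 = a ∧ φ 8 = a + 2 * π ∧
    ∀ k < 8, φ (k + 1) < φ k + π ∧ η (dir η (φ (k + 1)) - dir η (φ k)) ≤ Lam η - 2 := by
  have hπ := pi_pos
  have ct : Continuous fun t => η (dir η a - dir η t) - η (dir η a + dir η t) :=
    ((sn_cont η).comp (continuous_const.sub (dir_cont hη))).sub
      ((sn_cont η).comp (continuous_const.add (dir_cont hη)))
  have two : η (dir η a + dir η a) = 2 := by
    rw [← two_smul ℝ, smul_nn η zero_le_two, eta_dir hη, mul_one]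
  have e0 : η (dir η a - dir η a) - η (dir η a + dir η a) = -2 := by simp [two]
  have e1 : η (dir η a - dir η (a + π)) - η (dir η a + dir η (a + π)) = 2 := by
    simp [dir_add_pi, two]
  obtain ⟨b, ⟨b1, b2⟩, hb⟩ := intermediate_value_Icc (show a ≤ a + π by linarith) ct.continuousOn
    (show (0 : ℝ) ∈ Set.Icc _ _ by rw [e0, e1]; constructor <;> norm_num)
  replace b1 : a < b := b1.lt_of_ne (by rintro rfl; linarith)
  replace b2 : b < a + π := b2.lt_of_ne (by rintro rfl; linarith)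
  obtain ⟨c, l, c1, c2, hl, ec⟩ := dir_mid hη b1 b2
  obtain ⟨d, m, d1, d2, hm, ed⟩ := dir_mid hη b2 (show a + π < b + π by linarith)
  rw [dir_add_pi] at ed
  have hu := eta_dir hη a
  have hv := eta_dir hη b
  have hw := eta_dir hη c
  have hz := eta_dir hη d
  set u := dir η a
  set v := dir η b
  set w := dir η c
  set z := dir η d
  set β := η (u + v) with hβ
  have hβ' : η (u - v) = β := by linarith
  have l1 : l * β = 1 := by rw [← smul_nn η hl, ← ec, hw]
  have m1 : m * β = 1 := by rw [← hβ', map_sub_rev, ← smul_nn η hm, sub_eq_add_neg, ← ed, hz]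
  have β1 : 1 ≤ β := by
    have := map_add_le_add η (u + v) (u - v)
    rw [show u + v + (u - v) = u + u by abel] at this
    linarith
  have β2 : β ≤ 2 := by linarith [map_add_le_add η u v]
  obtain rfl : m = l := mul_right_cancel₀ (by linarith : β ≠ 0) (m1.trans l1.symm)
  have L1 := le_Lam η hu.le hv.le
  have L2 := le_Lam η hw.le hz.le
  rw [show w + z = (2 * m) • v by rw [ec, ed]; module, show w - z = (2 * m) • u by rw [ec, ed]; module,
    smul_nn η (by positivity), smul_nn η (by positivity), hu, hv] at L2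
  have m2 : 0 ≤ 2 * m - 1 := by nlinarith
  have side : ∀ x y : ℝ × ℝ, η x = 1 → η y = 1 →
      η ((β - 1) • x + (2 * m - 1) • y) ≤ Lam η - 2 := fun x y hx hy => by
    have := comb_le η (sub_nonneg.2 β1) m2 x y
    rw [hx, hy] at this
    linarith
  have k : (β - 1) * m = 1 - m := by linarith
  have s1 : η (w - u) ≤ Lam η - 2 := by
    convert side z v hz hv using 2
    rw [ec, ed, smul_smul, k]; module
  have s2 : η (v - w) ≤ Lam η - 2 := by
    convert side z (-u) hz (by rwa [map_neg_eq_map]) using 2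
    rw [ec, ed, smul_smul, k]; module
  have s3 : η (z - v) ≤ Lam η - 2 := by
    convert side (-w) (-u) (by rwa [map_neg_eq_map]) (by rwa [map_neg_eq_map]) using 2
    rw [ec, ed, smul_neg, smul_smul, k]; module
  have s4 : η (-u - z) ≤ Lam η - 2 := by
    convert side (-w) (-v) (by rwa [map_neg_eq_map]) (by rwa [map_neg_eq_map]) using 2
    rw [ec, ed, smul_neg, smul_smul, k]; module
  have ng : ∀ s t, η (dir η (t + π) - dir η (s + π)) = η (dir η t - dir η s) := fun s t => by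
    rw [dir_add_pi, dir_add_pi, neg_sub_neg, map_sub_rev]
  refine ⟨fun k => [a, c, b, d, a + π, c + π, b + π, d + π, a + π + π].getD k 0, rfl,
    by simp; ring, fun k hk => ?_⟩
  interval_cases k <;> simp only [List.getD_cons_succ, List.getD_cons_zero, ng] <;>
    refine ⟨by linarith, ?_⟩ <;> first | assumption | (rw [dir_add_pi]; assumption)

/-- the schedule for eight points in cyclic order -/
theorem sched (p : Fin 8 → ℝ × ℝ) (hp : ∀ i, η (p i) ≤ 1) (q : Equiv.Perm (Fin 8))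
    (g : Fin 8 → ℝ) {γ α κ : ℝ} (hκ : 0 ≤ κ) (hg : ∀ i, γ ≤ g i) (hs : ∑ i, g i = 2 * π)
    (hD : ∀ i, η (p (q (i + 1)) - p (q i)) ≤ α + κ * g i)
    (h1 : η (p (q 0)) + η (p (q 1) - p (q 0)) ≤ Lam η - 1)
    (h2 : 2 * α + κ * (2 * π - 6 * γ) ≤ 2) (h3 : 3 * α + κ * (2 * π - 5 * γ) ≤ Lam η) :
    ∃ T : BinaryTree (Fin 8), labels T = Finset.univ.val ∧ span η p 0 T ≤ 1 + Lam η := by
  refine ⟨.node (q 0) (.node (q 1) (.node (q 2) (.node (q 3) .nil .nil) .nil) (.node (q 4) .nil .nil))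
    (.node (q 7) (.node (q 6) (.node (q 5) .nil .nil) .nil) .nil), ?_, ?_⟩
  · rw [← Multiset.map_univ_val_equiv q, show (Finset.univ.val : Multiset (Fin 8)) =
      0 ::ₘ (1 ::ₘ (2 ::ₘ (3 ::ₘ (0 + 0) + 0) + 4 ::ₘ (0 + 0)) + 7 ::ₘ (6 ::ₘ (5 ::ₘ (0 + 0) + 0) + 0))
      by decide]
    simp only [labels, Multiset.map_cons, Multiset.map_add, Multiset.map_zero]
  · rw [Fin.sum_univ_eight] at hs
    have a1 : η (p (q 2) - p (q 1)) ≤ α + κ * g 1 := hD 1
    have a2 : η (p (q 3) - p (q 2)) ≤ α + κ * g 2 := hD 2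
    have a5 : η (p (q 5) - p (q 6)) ≤ α + κ * g 5 := map_sub_rev η _ _ ▸ hD 5
    have a6 : η (p (q 6) - p (q 7)) ≤ α + κ * g 6 := map_sub_rev η _ _ ▸ hD 6
    have a7 : η (p (q 7) - p (q 0)) ≤ α + κ * g 7 := map_sub_rev η _ _ ▸ hD 7
    have a4 := map_sub_le_add η (p (q 4)) (p (q 1))
    have b1 : κ * (g 1 + g 2) ≤ κ * (2 * π - 6 * γ) := mul_le_mul_of_nonneg_left
      (by linarith [hg 0, hg 3, hg 4, hg 5, hg 6, hg 7]) hκ
    have b2 : κ * (g 5 + g 6 + g 7) ≤ κ * (2 * π - 5 * γ) := mul_le_mul_of_nonneg_left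
      (by linarith [hg 0, hg 1, hg 2, hg 3, hg 4]) hκ
    have n2 := apply_nonneg η (p (q 3) - p (q 2))
    have n5 := apply_nonneg η (p (q 5) - p (q 6))
    have n6 := apply_nonneg η (p (q 6) - p (q 7))
    simp only [span, max_self, add_zero, sub_zero, max_eq_left n2, max_eq_left n5,
      max_eq_left (add_nonneg n6 n5)]
    rw [← max_add_add_left, ← max_add_add_left, ← max_add_add_left]
    refine max_le (max_le ?_ ?_) ?_ <;> linarith [hp (q 0), hp (q 1), hp (q 4)]

theorem first_two {u v : ℝ × ℝ} {a b L : ℝ} (hu : η u = 1) (hv : η v = 1) (h0 : 0 ≤ a) (h1 : a ≤ b)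
    (h2 : b ≤ 1) (hc : η (v - u) ≤ L - 2) : η (a • u) + η (b • v - a • u) ≤ L - 1 := by
  have := comb_le η (sub_nonneg.2 h1) h0 v (v - u)
  rw [show (b - a) • v + a • (v - u) = b • v - a • u by module, hv] at this
  rw [smul_nn η h0, hu]
  nlinarith [apply_nonneg η (v - u)]

/-- at least eight points whose directions are more than a ninth of a turn apart -/
theorem fin8 (hη : ∀ x, η x = 0 → x = 0) {n : ℕ} (hn : 7 < n) (p : Fin n → ℝ × ℝ)
    (ρ θ : Fin n → ℝ) (hp : ∀ i, p i = ρ i • dir η (θ i)) (h0 : ∀ i, 0 ≤ ρ i) (h1 : ∀ i, ρ i ≤ 1)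
    {γ α κ : ℝ} (hγ : 2 * π < 9 * γ) (hκ : 0 ≤ κ)
    (sep : ∀ i j, i ≠ j → ∀ z : ℤ, γ ≤ |θ j - θ i - 2 * π * z|)
    (hD : ∀ i j (z : ℤ) (g : ℝ), g = θ j - θ i - 2 * π * z → γ ≤ g → g ≤ 2 * π - 7 * γ →
      η (p j - p i) ≤ α + κ * g)
    (h2 : 2 * α + κ * (2 * π - 6 * γ) ≤ 2) (h3 : 3 * α + κ * (2 * π - 5 * γ) ≤ Lam η) :
    ∃ T : BinaryTree (Fin n), labels T = Finset.univ.val ∧ span η p 0 T ≤ 1 + Lam η := by
  have hπ := two_pi_pos
  obtain ⟨t, y, ty, t0, t1⟩ : ∃ (t : Fin n → ℝ) (y : Fin n → ℤ), (∀ i, t i = θ i - 2 * π * y i) ∧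
      (∀ i, 0 ≤ t i) ∧ ∀ i, t i < 2 * π := by
    refine ⟨_, fun i => ⌊θ i / (2 * π)⌋, fun _ => rfl, fun i => ?_, fun i => ?_⟩
    · have := Int.floor_le (θ i / (2 * π))
      rw [le_div_iff₀ hπ] at this
      linarith
    · have := Int.lt_floor_add_one (θ i / (2 * π))
      rw [div_lt_iff₀ hπ] at this
      linarith
  have mo := Tuple.monotone_sort t
  set σ := Tuple.sort t
  have sp : ∀ i j : Fin n, i < j → γ ≤ t (σ j) - t (σ i) ∧ γ ≤ t (σ i) + 2 * π - t (σ j) :=
    fun i j h => by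
      have ne : σ i ≠ σ j := σ.injective.ne h.ne
      have le : t (σ i) ≤ t (σ j) := mo h.le
      have a := sep _ _ ne (y (σ j) - y (σ i))
      have b := sep _ _ ne (y (σ j) - y (σ i) + 1)
      push_cast at a b
      rw [abs_of_nonneg (by linarith [ty (σ i), ty (σ j)])] at a
      rw [abs_of_nonpos (by linarith [ty (σ i), ty (σ j), t0 (σ i), t1 (σ j)])] at b
      constructor <;> linarith [ty (σ i), ty (σ j)]
  obtain rfl : n = 8 := by
    by_contra h
    have h9 : 8 < n := by omega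
    have k : ∀ a b : ℕ, (h : a < b) → (hb : b < n) → _ := fun a b h hb =>
      sp ⟨a, h.trans hb⟩ ⟨b, hb⟩ h
    linarith [(k 0 1 (by omega) (by omega)).1, (k 1 2 (by omega) (by omega)).1,
      (k 2 3 (by omega) (by omega)).1, (k 3 4 (by omega) (by omega)).1,
      (k 4 5 (by omega) (by omega)).1, (k 5 6 (by omega) (by omega)).1,
      (k 6 7 (by omega) (by omega)).1, (k 7 8 (by omega) (by omega)).1, (k 0 8 (by omega) h9).2]
  have hp1 : ∀ i, η (p i) ≤ 1 := fun i => by rw [hp, smul_nn η (h0 i), eta_dir hη, mul_one]; exact h1 i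
  obtain ⟨g, w, hg⟩ : ∃ (g : Fin 8 → ℝ) (w : Fin 8 → ℤ), (∀ i, g i = t (σ (i + 1)) - t (σ i) +
      2 * π * w i) ∧ ∀ i, w i = if i = 7 then 1 else 0 := ⟨_, _, fun _ => rfl, fun _ => rfl⟩
  have gγ : ∀ i, γ ≤ g i := fun i => by
    rw [hg.1, hg.2]
    split_ifs with c
    · subst c
      have := (sp 0 7 (by decide)).2
      push_cast
      linarith
    · simpa using (sp i (i + 1) (by revert i; decide)).1
  have gs : ∑ i, g i = 2 * π := by
    simp only [hg.1, hg.2, Fin.sum_univ_eight]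
    simp
    ring
  have gD : ∀ i, η (p (σ (i + 1)) - p (σ i)) ≤ α + κ * g i := fun i => by
    refine hD _ _ (y (σ (i + 1)) - y (σ i) - w i) _ (by rw [hg.1, ty, ty]; push_cast; ring) (gγ i) ?_
    have := Finset.add_sum_erase Finset.univ g (Finset.mem_univ i)
    have k := Finset.card_nsmul_le_sum (Finset.univ.erase i) g γ fun j _ => gγ j
    rw [Finset.card_erase_of_mem (Finset.mem_univ i)] at k
    simp only [Finset.card_univ, Fintype.card_fin, nsmul_eq_mul] at k
    norm_num at k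
    linarith
  obtain ⟨φ, φ0, φ8, hφ⟩ := octagon hη (t (σ 0))
  obtain ⟨i, i1, i2⟩ : ∃ i : Fin 8, φ i ≤ t (σ i) ∧ t (σ i) + g i ≤ φ (i + 1) := by
    by_contra! hc
    have k : ∀ i : Fin 8, φ i ≤ t (σ i) → φ (i + 1) < t (σ (i + 1)) + 2 * π * w i := fun i h => by
      linarith [hc i h, hg.1 i]
    simp only [hg.2] at k
    have k0 := k 0 φ0.le
    have k1 := k 1 (by simpa using k0.le)
    have k2 := k 2 (by simpa using k1.le)
    have k3 := k 3 (by simpa using k2.le)
    have k4 := k 4 (by simpa using k3.le)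
    have k5 := k 5 (by simpa using k4.le)
    have k6 := k 6 (by simpa using k5.le)
    have k7 := k 7 (by simpa using k6.le)
    simp at k7
    linarith
  have ch := (chord_mono hη i1 (by linarith [gγ i]) i2 (hφ i i.2).1).trans (hφ i i.2).2
  rw [show t (σ i) + g i = θ (σ (i + 1)) - 2 * π * (y (σ (i + 1)) - w i : ℤ) by
    rw [hg.1, ty (σ (i + 1))]; push_cast; ring, dir_per, ty, dir_per] at ch
  rcases le_total (ρ (σ i)) (ρ (σ (i + 1))) with c | c
  · refine sched p hp1 ((Equiv.addLeft i).trans σ) (fun k => g (i + k)) hκ (fun k => gγ _)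
      ((Equiv.sum_comp (Equiv.addLeft i) g).trans gs) (fun k => ?_) ?_ h2 h3
    · simpa [add_assoc] using gD (i + k)
    · simpa [hp] using first_two (eta_dir hη _) (eta_dir hη _) (h0 _) c (h1 _) ch
  · refine sched p hp1 ((Equiv.subLeft (i + 1)).trans σ) (fun k => g (i - k)) hκ (fun k => gγ _)
      ((Equiv.sum_comp (Equiv.subLeft i) g).trans gs) (fun k => ?_) ?_ h2 h3
    · have := gD (i - k)
      rw [map_sub_rev, show i - k + 1 = i + 1 - k by abel] at this
      simpa using this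
    · rw [map_sub_rev] at ch
      simpa [hp] using first_two (eta_dir hη _) (eta_dir hη _) (h0 _) c (h1 _) ch

end Pool.Agent.MP_1037db_co.J
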