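import Pool.Agent.MP_1037db_co.J.Fin8

/-! Eight points in a cyclic pattern with short steps. -/

namespace Pool.Agent.MP_1037db_co.J

open Real

variable {η : Seminorm ℝ (ℝ × ℝ)}

/-- among eight points of the unit disk two can be woken one after the other by time `Lam η - 1` -/
theorem pair8 (hη : ∀ x, η x = 0 → x = 0) (p : Fin 8 → ℝ × ℝ) (hp : ∀ i, η (p i) ≤ 1) :
    ∃ i j, i ≠ j ∧ η (p i) + η (p j - p i) ≤ Lam η - 1 := by
  obtain ⟨a, -, -, ea⟩ := exists_angle hη (p 0) 0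
  choose θ t0 t1 e using fun i => exists_angle hη (p i) a
  obtain ⟨φ, φ0, φ8, hφ⟩ := octagon hη a
  have two : ∀ (i j : Fin 8) (k : ℕ) (s t : ℝ), i ≠ j → k < 8 → p i = η (p i) • dir η s →
      p j = η (p j) • dir η t → φ k ≤ s → s ≤ φ (k + 1) → φ k ≤ t → t ≤ φ (k + 1) →
      ∃ i j, i ≠ j ∧ η (p i) + η (p j - p i) ≤ Lam η - 1 := fun i j k s t ne hk ei ej s0 s1 u0 u1 => by
    have ch : η (dir η t - dir η s) ≤ Lam η - 2 := by
      rcases le_total s t with c | c
      · exact (chord_mono hη s0 c u1 (hφ k hk).1).trans (hφ k hk).2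
      · rw [map_sub_rev]
        exact (chord_mono hη u0 c s1 (hφ k hk).1).trans (hφ k hk).2
    rcases le_total (η (p i)) (η (p j)) with c | c
    · have := first_two (eta_dir hη s) (eta_dir hη t) (apply_nonneg η _) c (hp j) ch
      rw [← ei, ← ej] at this
      exact ⟨i, j, ne, this⟩
    · rw [map_sub_rev] at ch
      have := first_two (eta_dir hη t) (eta_dir hη s) (apply_nonneg η _) c (hp i) ch
      rw [← ei, ← ej] at this
      exact ⟨j, i, ne.symm, this⟩
  have arc : ∀ t, a ≤ t → t ≤ a + 2 * π → ∃ k : Fin 8, φ k ≤ t ∧ t ≤ φ (k + 1) := fun t h0 h1 => by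
    by_contra! hc
    have k0 := hc 0 (by simpa [φ0] using h0)
    have k1 := hc 1 (by simpa using k0.le)
    have k2 := hc 2 (by simpa using k1.le)
    have k3 := hc 3 (by simpa using k2.le)
    have k4 := hc 4 (by simpa using k3.le)
    have k5 := hc 5 (by simpa using k4.le)
    have k6 := hc 6 (by simpa using k5.le)
    have k7 := hc 7 (by simpa using k6.le)
    have : φ 8 < t := by simpa using k7
    linarith
  choose k k0 k1 using fun i => arc (θ i) (t0 i) (by linarith [t1 i])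
  obtain ⟨z, z0, z1⟩ := arc a le_rfl (by linarith [two_pi_pos])
  have e2 : p 0 = η (p 0) • dir η (φ 8) := by
    rw [φ8, show a + 2 * π = a - 2 * π * (-1 : ℤ) by push_cast; ring, dir_per]
    exact ea
  by_cases c : ∃ i, i ≠ 0 ∧ (k i = 0 ∨ k i = 7)
  · obtain ⟨i, ne, c | c⟩ := c
    · have a0 := k0 i
      have a1 := k1 i
      rw [c] at a0 a1
      exact two i 0 0 (θ i) a ne (by norm_num) (e i) ea a0 a1 φ0.le (by
        have := t0 i
        simp at a1
        linarith)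
    · have a0 := k0 i
      have a1 := k1 i
      rw [c] at a0 a1
      exact two i 0 7 (θ i) (φ 8) ne (by norm_num) (e i) e2 a0 a1 (a0.trans a1) le_rfl
  · push Not at c
    obtain ⟨i, hi, j, hj, ne, eq⟩ := Finset.exists_ne_map_eq_of_card_lt_of_maps_to
      (s := Finset.univ.erase (0 : Fin 8)) (t := (Finset.univ.erase (0 : Fin 8)).erase 7) (f := k)
      (by decide) (fun i hi => by
        have := c i (Finset.mem_erase.1 hi).1
        simp [this.1, this.2])
    exact two i j (k i) (θ i) (θ j) ne (k i).2 (e i) (e j) (k0 i) (k1 i) (eq ▸ k0 j) (eq ▸ k1 j)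

theorem labels_map {α β : Type} (f : α → β) (T : BinaryTree α) :
    labels (T.map f) = (labels T).map f := by
  induction T with
  | nil => rfl
  | node a l r hl hr => simp [BinaryTree.map, labels, hl, hr]

theorem span_map {α β : Type} (f : α → β) (p : β → ℝ × ℝ) (T : BinaryTree α) :
    ∀ v, span η p v (T.map f) = span η (fun i => p (f i)) v T := by
  induction T with
  | nil => intro v; rfl
  | node a l r hl hr => intro v; simp [BinaryTree.map, span, hl, hr]

theorem relabel {α β : Type} [Fintype α] [Fintype β] (q : α ≃ β) (p : β → ℝ × ℝ) {L : ℝ}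
    (h : ∃ T : BinaryTree α, labels T = Finset.univ.val ∧ span η (fun i => p (q i)) 0 T ≤ L) :
    ∃ T : BinaryTree β, labels T = Finset.univ.val ∧ span η p 0 T ≤ L := by
  obtain ⟨T, h1, h2⟩ := h
  exact ⟨T.map q, by rw [labels_map, h1, Multiset.map_univ_val_equiv], by rwa [span_map]⟩

theorem sched4 (p : Fin 8 → ℝ × ℝ) (hp : ∀ i, η (p i) ≤ 1) {δ : ℝ} (h2 : δ ≤ 1)
    (h3 : 3 * δ ≤ Lam η) (hD : ∀ i, η (p (i + 1) - p i) ≤ δ) (k : Fin 8) (k0 : 0 < k) (k4 : k ≤ 4)
    (h1 : η (p 0) + η (p k - p 0) ≤ Lam η - 1) :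
    ∃ T : BinaryTree (Fin 8), labels T = Finset.univ.val ∧ span η p 0 T ≤ 1 + Lam η := by
  have f0 : η (p 1 - p 0) ≤ δ := hD 0
  have f1 : η (p 2 - p 1) ≤ δ := hD 1
  have f2 : η (p 3 - p 2) ≤ δ := hD 2
  have f3 : η (p 4 - p 3) ≤ δ := hD 3
  have f4 : η (p 5 - p 4) ≤ δ := hD 4
  have f5 : η (p 6 - p 5) ≤ δ := hD 5
  have g1 : η (p 1 - p 2) ≤ δ := map_sub_rev η _ _ ▸ hD 1
  have g2 : η (p 2 - p 3) ≤ δ := map_sub_rev η _ _ ▸ hD 2
  have g3 : η (p 3 - p 4) ≤ δ := map_sub_rev η _ _ ▸ hD 3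
  have g5 : η (p 5 - p 6) ≤ δ := map_sub_rev η _ _ ▸ hD 5
  have g6 : η (p 6 - p 7) ≤ δ := map_sub_rev η _ _ ▸ hD 6
  have g7 : η (p 7 - p 0) ≤ δ := map_sub_rev η _ _ ▸ hD 7
  have d0 : 0 ≤ δ := (apply_nonneg η _).trans f0
  have a4 := map_sub_le_add η (p 4) (p 1)
  have a7 := map_add_le_add η (p 7 - p 0) (p 0 - p 1)
  rw [sub_add_sub_cancel, map_sub_rev η (p 0)] at a7
  have b0 := hp 0
  have b1 := hp 1
  have b4 := hp 4
  have key : ∀ T : BinaryTree (Fin 8), labels T = Finset.univ.val → span η p 0 T ≤ 1 + Lam η →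
      ∃ T : BinaryTree (Fin 8), labels T = Finset.univ.val ∧ span η p 0 T ≤ 1 + Lam η :=
    fun T a b => ⟨T, a, b⟩
  obtain rfl | rfl | rfl | rfl : k = 1 ∨ k = 2 ∨ k = 3 ∨ k = 4 := by omega
  · refine key (.node 0 (.node 1 (.node 2 (.node 3 .nil .nil) .nil) (.node 4 .nil .nil))
      (.node 7 (.node 6 (.node 5 .nil .nil) .nil) .nil)) (by decide) ?_
    simp only [span, sub_zero, ← max_add_add_left, max_le_iff, add_zero, max_self]
    refine ⟨⟨⟨?_, ?_⟩, ?_⟩, ⟨?_, ?_⟩, ?_⟩ <;> linarith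
  · refine key (.node 0 (.node 2 (.node 3 (.node 4 .nil .nil) .nil) (.node 1 .nil .nil))
      (.node 7 (.node 6 (.node 5 .nil .nil) .nil) .nil)) (by decide) ?_
    simp only [span, sub_zero, ← max_add_add_left, max_le_iff, add_zero, max_self]
    refine ⟨⟨⟨?_, ?_⟩, ?_⟩, ⟨?_, ?_⟩, ?_⟩ <;> linarith
  · refine key (.node 0 (.node 3 (.node 2 (.node 1 .nil .nil) .nil) (.node 4 (.node 5 .nil .nil) .nil))
      (.node 7 (.node 6 .nil .nil) .nil)) (by decide) ?_
    simp only [span, sub_zero, ← max_add_add_left, max_le_iff, add_zero, max_self]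
    refine ⟨⟨⟨?_, ?_⟩, ?_, ?_⟩, ?_, ?_⟩ <;> linarith
  · refine key (.node 0 (.node 4 (.node 3 (.node 2 .nil .nil) .nil) (.node 5 (.node 6 .nil .nil) .nil))
      (.node 1 (.node 7 .nil .nil) .nil)) (by decide) ?_
    simp only [span, sub_zero, ← max_add_add_left, max_le_iff, add_zero, max_self]
    refine ⟨⟨⟨?_, ?_⟩, ?_, ?_⟩, ?_, ?_⟩ <;> linarith

/-- eight points listed cyclically, consecutive ones at distance at most `δ` -/
theorem cyc8 (hη : ∀ x, η x = 0 → x = 0) (p : Fin 8 → ℝ × ℝ) (hp : ∀ i, η (p i) ≤ 1) {δ : ℝ}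
    (h2 : δ ≤ 1) (h3 : 3 * δ ≤ Lam η) (hD : ∀ i, η (p (i + 1) - p i) ≤ δ) :
    ∃ T : BinaryTree (Fin 8), labels T = Finset.univ.val ∧ span η p 0 T ≤ 1 + Lam η := by
  obtain ⟨i, j, ne, h⟩ := pair8 hη p hp
  by_cases c : j - i ≤ 4
  · refine relabel (Equiv.addLeft i) p (sched4 _ (fun _ => hp _) h2 h3 (fun k => ?_) (j - i)
      (Fin.pos_iff_ne_zero.2 (sub_ne_zero.2 ne.symm)) c (by simpa using h))
    simpa [add_assoc] using hD (i + k)
  · refine relabel (Equiv.subLeft i) p (sched4 _ (fun _ => hp _) h2 h3 (fun k => ?_) (i - j)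
      (Fin.pos_iff_ne_zero.2 (sub_ne_zero.2 ne)) ((by decide : ∀ i j : Fin 8, ¬j - i ≤ 4 → i - j ≤ 4) i j c) (by simpa using h))
    have := hD (i - (k + 1))
    rw [map_sub_rev, show i - (k + 1) + 1 = i - k by abel] at this
    rw [map_sub_rev]
    simpa [map_sub_rev η (p (i - k))] using this

/-- at least eight points in `8 * k` cyclic columns, any two at least `k` columns apart -/
theorem fin8c (hη : ∀ x, η x = 0 → x = 0) {n : ℕ} (hn : 7 < n) (p : Fin n → ℝ × ℝ)
    (hp : ∀ i, η (p i) ≤ 1) (col : Fin n → ℤ) {k : ℤ} (hk : 0 < k) {δ : ℝ} (h2 : δ ≤ 1)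
    (h3 : 3 * δ ≤ Lam η) (sep : ∀ i j, i ≠ j → ∀ z : ℤ, k ≤ |col j - col i - 8 * k * z|)
    (hD : ∀ i j (z : ℤ), col j - col i - 8 * k * z = k → η (p j - p i) ≤ δ) :
    ∃ T : BinaryTree (Fin n), labels T = Finset.univ.val ∧ span η p 0 T ≤ 1 + Lam η := by
  have k8 : 0 < 8 * k := by omega
  obtain ⟨u, y, uy, u0, u1⟩ : ∃ u y : Fin n → ℤ, (∀ i, u i = col i - 8 * k * y i) ∧
      (∀ i, 0 ≤ u i) ∧ ∀ i, u i < 8 * k :=
    ⟨fun i => col i % (8 * k), fun i => col i / (8 * k), fun i => Int.emod_def _ _,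
      fun i => Int.emod_nonneg _ k8.ne', fun i => Int.emod_lt_of_pos _ k8⟩
  have sp : ∀ i j, i ≠ j → ∀ w : ℤ, k ≤ |u j - u i + 8 * k * w| := fun i j ne w => by
    have := sep i j ne (y j - y i - w)
    rwa [show col j - col i - 8 * k * (y j - y i - w) = u j - u i + 8 * k * w by rw [uy, uy]; ring] at this
  have b0 : ∀ i, 0 ≤ u i / k := fun i => Int.ediv_nonneg (u0 i) hk.le
  have b1 : ∀ i, u i / k < 8 := fun i => Int.ediv_lt_of_lt_mul hk (u1 i)
  let b : Fin n → Fin 8 := fun i => ⟨(u i / k).toNat, by have := b0 i; have := b1 i; omega⟩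
  have bl : ∀ i, k * (b i : ℕ) ≤ u i ∧ u i < k * (b i : ℕ) + k := fun i => by
    have e : ((b i : ℕ) : ℤ) = u i / k := Int.toNat_of_nonneg (b0 i)
    have := Int.emod_def (u i) k
    have := Int.emod_nonneg (u i) hk.ne'
    have := Int.emod_lt_of_pos (u i) hk
    rw [e]
    constructor <;> linarith
  have inj : Function.Injective b := fun i j e => by
    by_contra ne
    have := sp i j ne 0
    have bi := bl i
    have bj := bl j
    rw [e] at bi
    rw [mul_zero, add_zero, le_abs] at this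
    rcases this with c | c <;> linarith [bi.1, bi.2, bj.1, bj.2]
  have n8 : n = 8 := by
    have := Fintype.card_le_of_injective b inj
    simp only [Fintype.card_fin] at this
    omega
  subst n8
  let q := (Equiv.ofBijective b (Finite.injective_iff_bijective.1 inj)).symm
  have bq : ∀ i, b (q i) = i := fun i => (Equiv.ofBijective b _).apply_symm_apply i
  have ql : ∀ i : Fin 8, k * (i : ℕ) ≤ u (q i) ∧ u (q i) < k * (i : ℕ) + k := fun i => by
    simpa only [bq] using bl (q i)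
  have st : ∀ (i : Fin 8) (w : ℤ), 0 < u (q (i + 1)) - u (q i) + 8 * k * w →
      k ≤ u (q (i + 1)) - u (q i) + 8 * k * w := fun i w h => by
    have := sp (q i) (q (i + 1)) (q.injective.ne ((by decide : ∀ i : Fin 8, i ≠ i + 1) i)) w
    rwa [abs_of_pos h] at this
  have q0 := ql 0
  have q1 := ql 1
  have q2 := ql 2
  have q3 := ql 3
  have q4 := ql 4
  have q5 := ql 5
  have q6 := ql 6
  have q7 := ql 7
  simp only [Fin.isValue, Fin.coe_ofNat_eq_mod, Nat.reduceMod, Nat.cast_ofNat, Nat.cast_zero,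
    Nat.cast_one] at q0 q1 q2 q3 q4 q5 q6 q7
  have s0 : k ≤ u (q 1) - u (q 0) + 8 * k * 0 := st 0 0 (show 0 < u (q 1) - _ + _ by omega)
  have s1 : k ≤ u (q 2) - u (q 1) + 8 * k * 0 := st 1 0 (show 0 < u (q 2) - _ + _ by omega)
  have s2 : k ≤ u (q 3) - u (q 2) + 8 * k * 0 := st 2 0 (show 0 < u (q 3) - _ + _ by omega)
  have s3 : k ≤ u (q 4) - u (q 3) + 8 * k * 0 := st 3 0 (show 0 < u (q 4) - _ + _ by omega)
  have s4 : k ≤ u (q 5) - u (q 4) + 8 * k * 0 := st 4 0 (show 0 < u (q 5) - _ + _ by omega)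
  have s5 : k ≤ u (q 6) - u (q 5) + 8 * k * 0 := st 5 0 (show 0 < u (q 6) - _ + _ by omega)
  have s6 : k ≤ u (q 7) - u (q 6) + 8 * k * 0 := st 6 0 (show 0 < u (q 7) - _ + _ by omega)
  have s7 : k ≤ u (q 0) - u (q 7) + 8 * k * 1 := st 7 1 (show 0 < u (q 0) - _ + _ by omega)
  refine relabel q p (cyc8 hη _ (fun _ => hp _) h2 h3 fun i => ?_)
  refine hD _ _ (y (q (i + 1)) - y (q i) - if i = 7 then 1 else 0) ?_
  have : u (q (i + 1)) - u (q i) + 8 * k * (if i = 7 then 1 else 0) = k := by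
    fin_cases i <;> simp <;> omega
  rw [uy, uy] at this
  linear_combination this

end Pool.Agent.MP_1037db_co.J
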